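import Pool.Agent.H169R3.KL.Clq
import Pool.Agent.H169R3.KL.Rig

set_option autoImplicit false
set_option linter.unusedSectionVars false

/-!
# Appending conjugated distinguished involutions: counterexamples in a large class

Let `(W, S)` be a right-angled Coxeter system, `S` finite, whose commuting graph (two generators are
adjacent when they commute) has no triangle but has a cycle `a, b, g, d` of length four.  Then the
statement of Q1 fails for `(W, S)`.
-/

namespace Pool.Agent.Results.MP_28e63a_al.FourCycles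

open Module Pool.Agent.Helper703.KL Pool.Agent.H169R3.KL

/-- The Coxeter matrix of `D_∞ × D_∞` with the generators `a, g, b, d` (in this order). -/
def M4 : CoxeterMatrix (Fin 4) where
  M := Matrix.of fun i j => if i = j then 1 else if i.val / 2 = j.val / 2 then 0 else 2
  isSymm := by
    ext i j
    fin_cases i <;> fin_cases j <;> rfl
  diagonal := by
    intro i
    simp
  off_diagonal := by
    intro i j h
    simp only [Matrix.of_apply, h, if_false]
    split_ifs <;> norm_num

instance (i j : Fin 4) (n : ℕ) : Decidable (M4 i j = n) :=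
  inferInstanceAs (Decidable (@Eq ℕ (M4 i j) n))

/-- The commuting graph has no triangle. -/
def NoTriangle {B : Type} (M : CoxeterMatrix B) : Prop :=
  ∀ i j k : B, i ≠ j → i ≠ k → j ≠ k → ¬ (M i j = 2 ∧ M i k = 2 ∧ M j k = 2)

/-- `a, b, g, d` is a cycle of length four of the commuting graph. -/
def FourCycle {B : Type} (M : CoxeterMatrix B) (a b g d : B) : Prop :=
  a ≠ g ∧ b ≠ d ∧ M a b = 2 ∧ M b g = 2 ∧ M g d = 2 ∧ M d a = 2

section

variable {B : Type} [Fintype B] [DecidableEq B] {M : CoxeterMatrix B} {p : Fin 4 → B}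

lemma hp_of (hR : RA M) (hT : NoTriangle M) {a b g d : B} (h : FourCycle M a b g d) :
    ∀ i j, M ((![a, g, b, d] : Fin 4 → B) i) ((![a, g, b, d] : Fin 4 → B) j) = M4 i j := by
  obtain ⟨h1, h2, h3, h4, h5, h6⟩ := h
  have ne2 : ∀ x y : B, M x y = 2 → x ≠ y := by
    rintro x y h rfl
    rw [M.diagonal] at h
    exact absurd h (by norm_num)
  have h3' : M b a = 2 := by rw [M.symmetric]; exact h3
  have h4' : M g b = 2 := by rw [M.symmetric]; exact h4
  have h5' : M d g = 2 := by rw [M.symmetric]; exact h5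
  have h6' : M a d = 2 := by rw [M.symmetric]; exact h6
  have ag : M a g = 0 := by
    rcases hR a g h1 with h | h
    · exact absurd ⟨h3, h, h4⟩ (hT a b g (ne2 _ _ h3) h1 (ne2 _ _ h4))
    · exact h
  have bd : M b d = 0 := by
    rcases hR b d h2 with h | h
    · exact absurd ⟨h3', h, h6'⟩ (hT b a d (ne2 _ _ h3') h2 (ne2 _ _ h6'))
    · exact h
  have ga : M g a = 0 := by rw [M.symmetric]; exact ag
  have db : M d b = 0 := by rw [M.symmetric]; exact bd
  intro i j
  fin_cases i <;> fin_cases j
  · exact M.diagonal a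
  · exact ag
  · exact h3
  · exact h6'
  · exact ga
  · exact M.diagonal g
  · exact h4'
  · exact h5
  · exact h3'
  · exact h4
  · exact M.diagonal b
  · exact bd
  · exact h6
  · exact h5'
  · exact db
  · exact M.diagonal d

lemma inj4 (hp : ∀ i j, M (p i) (p j) = M4 i j) : Function.Injective p := by
  intro i j h
  have h1 := hp i j
  rw [h, M.diagonal] at h1
  have h2 : ∀ i j : Fin 4, M4 i j = 1 → i = j := by decide
  exact h2 i j h1.symm

lemma ld_map (hp : ∀ i j, M (p i) (p j) = M4 i j) (s : Fin 4) (ω : List (Fin 4)) :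
    ld M (p s) (ω.map p) = ld M4 s ω := by
  induction ω with
  | nil => rfl
  | cons q ω ih =>
    rw [List.map_cons]
    unfold ld
    rw [ih, hp]
    congr 1
    simp only [(inj4 hp).eq_iff]

lemma isRed_map (hp : ∀ i j, M (p i) (p j) = M4 i j) (ω : List (Fin 4)) :
    isRed M (ω.map p) = isRed M4 ω := by
  induction ω with
  | nil => rfl
  | cons q ω ih =>
    rw [List.map_cons]
    unfold isRed
    rw [ih, ld_map hp]

lemma clq_map (hp : ∀ i j, M (p i) (p j) = M4 i j) {Q : List (Fin 4)} (h : Clq M4 Q) :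
    Clq M (Q.map p) := by
  refine ⟨h.1.map (inj4 hp), ?_⟩
  intro i hi j hj hij
  obtain ⟨i', hi', rfl⟩ := List.mem_map.1 hi
  obtain ⟨j', hj', rfl⟩ := List.mem_map.1 hj
  rw [hp]
  exact h.2 i' hi' j' hj' (fun e => hij (by rw [e]))

lemma clq_le (hT : NoTriangle M) (Q : List B) (hQ : Clq M Q) : Q.length ≤ 2 := by
  match Q, hQ with
  | [], _ => simp
  | [_], _ => simp
  | [_, _], _ => simp
  | i :: j :: k :: Q, hQ =>
    exfalso
    have h1 := hQ.1
    simp only [List.nodup_cons, List.mem_cons, not_or] at h1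
    exact hT i j k h1.1.1 h1.1.2.1 h1.2.1.1 ⟨hQ.2 i (by simp) j (by simp) h1.1.1,
      hQ.2 i (by simp) k (by simp) h1.1.2.1, hQ.2 j (by simp) k (by simp) h1.2.1.1⟩

variable {W : Type} [Group W] {cs : CoxeterSystem M W}

lemma len4 (hR : RA M) (hp : ∀ i j, M (p i) (p j) = M4 i j) {ω : List (Fin 4)}
    (h : isRed M4 ω = true) : cs.length (cs.wordProd (ω.map p)) = ω.length := by
  rw [len_word hR (by rw [isRed_map hp, h]), List.length_map]

lemma ldesc4 (hR : RA M) (hp : ∀ i j, M (p i) (p j) = M4 i j) {ω : List (Fin 4)}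
    (h : isRed M4 ω = true) {s : Fin 4} (h2 : ld M4 s ω = true) :
    cs.length (cs.simple (p s) * cs.wordProd (ω.map p)) < cs.length (cs.wordProd (ω.map p)) :=
  ldesc_word hR (by rw [isRed_map hp, h]) (by rw [ld_map hp, h2])

lemma rdesc4 (hR : RA M) (hp : ∀ i j, M (p i) (p j) = M4 i j) {ω : List (Fin 4)}
    (h : isRed M4 ω.reverse = true) {s : Fin 4} (h2 : ld M4 s ω.reverse = true) :
    cs.length (cs.wordProd (ω.map p) * cs.simple (p s)) < cs.length (cs.wordProd (ω.map p)) :=
  rdesc_word hR (by rw [← List.map_reverse, isRed_map hp, h])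
    (by rw [← List.map_reverse, ld_map hp, h2])

lemma rasc4 (hR : RA M) (hp : ∀ i j, M (p i) (p j) = M4 i j) {ω : List (Fin 4)}
    (h : isRed M4 ω.reverse = true) {s : Fin 4} (h2 : ld M4 s ω.reverse = false) :
    cs.length (cs.wordProd (ω.map p)) < cs.length (cs.wordProd (ω.map p) * cs.simple (p s)) :=
  rasc_word hR (by rw [← List.map_reverse, isRed_map hp, h])
    (by rw [← List.map_reverse, ld_map hp, h2])

/-- the four `μ` values vanish -/
lemma mu4 (hR : RA M) (hp : ∀ i j, M (p i) (p j) = M4 i j) (K : KLData cs) (Q : List (Fin 4))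
    (hQ : Q.Sublist [0, 2]) :
    K.mu (cs.wordProd ([0, 2].map p))
      (cs.wordProd ([0, 2].map p) * cs.wordProd ([1, 3].map p) * (cs.wordProd (Q.map p))⁻¹)
        = 0 := by
  have e : cs.wordProd (([0, 2] : List (Fin 4)).map p) * cs.wordProd (([1, 3] : List (Fin 4)).map p) *
      (cs.wordProd (Q.map p))⁻¹ = cs.wordProd (([0, 2, 1, 3] ++ Q.reverse).map p) := by
    rw [← cs.wordProd_reverse, ← List.map_reverse, ← cs.wordProd_append, ← cs.wordProd_append,
      ← List.map_append, ← List.map_append]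
    rfl
  rw [e]
  have hQ' : Q ∈ List.sublists [(0 : Fin 4), 2] := List.mem_sublists.2 hQ
  have l0 : cs.length (cs.wordProd (([0, 2] : List (Fin 4)).map p)) = 2 :=
    len4 hR hp (by decide)
  have hs : List.sublists [(0 : Fin 4), 2] = [[], [0], [2], [0, 2]] := by decide
  rw [hs] at hQ'
  simp only [List.mem_cons, List.not_mem_nil, or_false] at hQ'
  rcases hQ' with rfl | rfl | rfl | rfl
  · have l1 : cs.length (cs.wordProd (([0, 2, 1, 3] ++ ([] : List (Fin 4)).reverse).map p)) = 4 :=
      len4 hR hp (by decide)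
    exact mu_desc K (by omega) (p 1) (rdesc4 hR hp (by decide) (by decide))
      (rasc4 hR hp (by decide) (by decide)) (by omega)
  · have l1 : cs.length (cs.wordProd (([0, 2, 1, 3] ++ [(0 : Fin 4)].reverse).map p)) = 5 :=
      len4 hR hp (by decide)
    exact mu_desc K (by omega) (p 3) (rdesc4 hR hp (by decide) (by decide))
      (rasc4 hR hp (by decide) (by decide)) (by omega)
  · have l1 : cs.length (cs.wordProd (([0, 2, 1, 3] ++ [(2 : Fin 4)].reverse).map p)) = 5 :=
      len4 hR hp (by decide)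
    exact mu_desc K (by omega) (p 1) (rdesc4 hR hp (by decide) (by decide))
      (rasc4 hR hp (by decide) (by decide)) (by omega)
  · have l1 : cs.length (cs.wordProd (([0, 2, 1, 3] ++ [(0 : Fin 4), 2].reverse).map p)) = 6 :=
      len4 hR hp (by decide)
    exact mu_even K (by omega) (by rw [l0, l1]; decide)

lemma clq02 : Clq M4 [0, 2] := ⟨by decide, by decide⟩
lemma clq13 : Clq M4 [1, 3] := ⟨by decide, by decide⟩

lemma w4_eq : cs.wordProd (([0, 2] : List (Fin 4)).map p) * cs.wordProd (([1, 3] : List (Fin 4)).map p)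
    = cs.wordProd (([0, 2, 1, 3] : List (Fin 4)).map p) := by
  rw [← cs.wordProd_append, ← List.map_append]; rfl

lemma hyp4 (hR : RA M) (hT : NoTriangle M) (hp : ∀ i j, M (p i) (p j) = M4 i j) (K : KLData cs) :
    K.Hyp (cs.wordProd ([0, 2].map p)) 1 (cs.wordProd ([0, 2].map p))
    (cs.wordProd ([1, 3].map p)) 1 (cs.wordProd ([1, 3].map p)) := by
  have l0 : cs.length (cs.wordProd (([0, 2] : List (Fin 4)).map p)) = 2 := len4 hR hp (by decide)
  have l1 : cs.length (cs.wordProd (([1, 3] : List (Fin 4)).map p)) = 2 := len4 hR hp (by decide)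
  have l2 : cs.length (cs.wordProd (([0, 2] : List (Fin 4)).map p) *
      cs.wordProd (([1, 3] : List (Fin 4)).map p)) = 4 := by
    rw [w4_eq]
    exact len4 hR hp (by decide)
  have hD := D_clq K hR (clq_le hT) (clq_map hp clq13) (by simp) (by simp) (by simp)
  have ha0 := a_clq K hR (clq_le hT) (clq_map hp clq02) (by simp)
  have ha1 := a_clq K hR (clq_le hT) (clq_map hp clq13) (by simp)
  refine ⟨⟨⟨by simp, by simp, inFinPar_clq (clq_map hp clq02)⟩, ?_⟩, by simp, by simp, hD.1, hD,
    ?_, ?_, ?_, ?_⟩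
  · rintro ⟨x', v', y', h1, _, _, _, h2⟩
    have := h1.2.1
    omega
  · intro h
    rw [h, cs.length_one] at l1
    omega
  · rw [ha0, ha1]; rfl
  · unfold Red; rw [l2, l0, l1]
  · rw [ha0]
    apply le_antisymm
    · exact a_le_N K hR (clq_le hT) _
    · refine a_lower K hR _ (([0, 2] : List (Fin 4)).map p) (clq_map hp clq02) ?_
      intro i hi
      rw [w4_eq]
      obtain ⟨i', hi', rfl⟩ := List.mem_map.1 hi
      simp only [List.mem_cons, List.not_mem_nil, or_false] at hi'
      rcases hi' with rfl | rfl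
      · exact ldesc4 hR hp (by decide) (by decide)
      · exact ldesc4 hR hp (by decide) (by decide)

lemma max4 (hR : RA M) (hT : NoTriangle M) (hp : ∀ i j, M (p i) (p j) = M4 i j) :
    MaxAt cs (cs.wordProd ([0, 2].map p) * cs.wordProd ([1, 3].map p)) (cs.wordProd ([0, 2].map p))
    (cs.wordProd ([1, 3].map p)) 1 := by
  have l0 : cs.length (cs.wordProd (([0, 2] : List (Fin 4)).map p)) = 2 := len4 hR hp (by decide)
  have l1 : cs.length (cs.wordProd (([1, 3] : List (Fin 4)).map p)) = 2 := len4 hR hp (by decide)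
  have l2 : cs.length (cs.wordProd (([0, 2] : List (Fin 4)).map p) *
      cs.wordProd (([1, 3] : List (Fin 4)).map p)) = 4 := by
    rw [w4_eq]
    exact len4 hR hp (by decide)
  refine ⟨⟨by simp, by rw [l2, l0, l1, cs.length_one], inFinPar_clq (clq_map hp clq13)⟩, ?_⟩
  rintro ⟨x', v', y', h1, _, _, _, h2⟩
  obtain ⟨Q, hQ, hv⟩ := inFinPar_le hR h1.2.2
  have h3 := hQ.length (cs := cs) hR
  have h4 := clq_le hT Q hQ
  rw [hv, h3, l1] at h2
  omega

lemma infinite4 (hR : RA M) (hp : ∀ i j, M (p i) (p j) = M4 i j) (cs : CoxeterSystem M W) :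
    Infinite W := by
  let f : B → DihedralGroup 0 := fun i =>
    if i = p 0 then .sr 0 else if i = p 1 then .sr 1 else 1
  have n01 : p 1 ≠ p 0 := fun e => absurd (inj4 hp e) (by decide)
  have hf : M.IsLiftable f := by
    intro i j
    by_cases h : i = j
    · subst h
      rw [M.diagonal, pow_one]
      simp only [f]
      split_ifs
      · decide
      · decide
      · simp
    · rcases hR i j h with h1 | h1
      · rw [h1]
        simp only [f]
        split_ifs with a1 a2 a3 a4 a5 a6 a7
        · exact absurd (a1.trans a2.symm) h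
        · exfalso
          rw [a1, a3, hp] at h1
          exact absurd h1 (by decide)
        · decide
        · exfalso
          rw [a4, a5, hp] at h1
          exact absurd h1 (by decide)
        · exact absurd (a4.trans a6.symm) h
        · decide
        · decide
        · decide
        · simp
      · rw [h1, pow_zero]
  by_contra hcon
  rw [not_infinite_iff_finite] at hcon
  have h1 : IsOfFinOrder (cs.simple (p 0) * cs.simple (p 1)) := isOfFinOrder_of_finite _
  have h2 := (cs.lift ⟨f, hf⟩).isOfFinOrder h1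
  rw [map_mul, cs.lift_apply_simple hf, cs.lift_apply_simple hf] at h2
  have h3 : f (p 0) * f (p 1) = DihedralGroup.r 1 := by
    simp only [f, n01, if_false, if_true]
    decide
  rw [h3, ← orderOf_pos_iff, DihedralGroup.orderOf_r_one] at h2
  exact lt_irrefl _ h2

lemma key4 (hR : RA M) (hp : ∀ i j, M (p i) (p j) = M4 i j) (K : KLData cs) (v0' v01 : W)
    (h1 : cs.wordProd ([0, 2].map p) = v0' * v01) (h2 : Red cs v0' v01) :
    K.mu (cs.wordProd ([0, 2].map p))
      (cs.wordProd ([0, 2].map p) * cs.wordProd ([1, 3].map p) * v01⁻¹) = 0 := by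
  obtain ⟨ω', h3, h4⟩ := suffix_word _ (([0, 2] : List (Fin 4)).map p) v0' v01 rfl h1.symm h2
  obtain ⟨Q, hQ, rfl⟩ := List.sublist_map_iff.1 h3
  rw [h4]
  exact mu4 hR hp K Q hQ

end

/-- The free product of `D_∞ × D_∞` and `k` copies of `ℤ/2`: the Coxeter matrix `M4` with `k`
further generators which do not commute with any other generator. -/
def Mk (k : ℕ) : CoxeterMatrix (Fin 4 ⊕ Fin k) where
  M := Matrix.of fun i j => if i = j then 1 else
    match i, j with
    | .inl a, .inl b => M4 a b
    | _, _ => 0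
  isSymm := by
    ext i j
    simp only [Matrix.transpose_apply, Matrix.of_apply]
    by_cases h : i = j
    · simp [h]
    · simp only [h, Ne.symm h, if_false]
      rcases i with a | a <;> rcases j with b | b
      · exact M4.symmetric b a
      · rfl
      · rfl
      · rfl
  diagonal := by
    intro i
    simp
  off_diagonal := by
    intro i j h
    simp only [Matrix.of_apply, h, if_false]
    rcases i with a | a <;> rcases j with b | b
    · exact M4.off_diagonal a b (fun e => h (by rw [e]))
    · norm_num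
    · norm_num
    · norm_num

lemma Mk_inl (k : ℕ) (i j : Fin 4) : Mk k (Sum.inl i) (Sum.inl j) = M4 i j := by
  show (if _ = _ then 1 else M4 i j) = M4 i j
  by_cases h : i = j
  · rw [if_pos (by rw [h]), h]
    exact (M4.diagonal j).symm
  · rw [if_neg (fun e => h (Sum.inl_injective e))]

lemma Mk_inr {k : ℕ} {i : Fin k} {j : Fin 4 ⊕ Fin k} (h : Sum.inr i ≠ j) :
    Mk k (Sum.inr i) j = 0 := by
  show (if Sum.inr i = j then 1 else _) = 0
  rw [if_neg h]

lemma Mk_inr' {k : ℕ} {i : Fin k} {j : Fin 4 ⊕ Fin k} (h : j ≠ Sum.inr i) :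
    Mk k j (Sum.inr i) = 0 := by
  rw [(Mk k).symmetric, Mk_inr h.symm]

lemma Mk_RA (k : ℕ) : RA (Mk k) := by
  intro i j h
  rcases i with a | a
  · rcases j with b | b
    · rw [Mk_inl]
      have : ∀ i j : Fin 4, i ≠ j → M4 i j = 2 ∨ M4 i j = 0 := by decide
      exact this a b (fun e => h (by rw [e]))
    · right
      exact Mk_inr' h
  · right
    exact Mk_inr h

lemma Mk_noTriangle (k : ℕ) : NoTriangle (Mk k) := by
  rintro i j l hij hil hjl ⟨h1, h2, h3⟩
  rcases i with a | a
  · rcases j with b | b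
    · rcases l with c | c
      · rw [Mk_inl] at h1 h2 h3
        have : ∀ i j k : Fin 4, i ≠ j → i ≠ k → j ≠ k → ¬ (M4 i j = 2 ∧ M4 i k = 2 ∧ M4 j k = 2) := by
          decide
        exact this a b c (fun e => hij (by rw [e])) (fun e => hil (by rw [e]))
          (fun e => hjl (by rw [e])) ⟨h1, h2, h3⟩
      · rw [Mk_inr' hil] at h2
        exact absurd h2 (by norm_num)
    · rw [Mk_inr' hij] at h1
      exact absurd h1 (by norm_num)
  · rw [Mk_inr hij] at h1
    exact absurd h1 (by norm_num)

lemma Mk_irred (k : ℕ) : Irred (Mk (k + 1)) := by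
  have h0 : ∀ j, Mk (k + 1) (Sum.inr 0) j ≠ 2 := by
    intro j
    by_cases h : Sum.inr 0 = j
    · rw [← h, (Mk (k + 1)).diagonal]; norm_num
    · rw [Mk_inr h]; norm_num
  intro s ⟨i, hi⟩ ⟨j, hj⟩
  by_cases h : (Sum.inr 0 : Fin 4 ⊕ Fin (k + 1)) ∈ s
  · exact ⟨Sum.inr 0, h, j, hj, h0 j⟩
  · refine ⟨i, hi, Sum.inr 0, h, ?_⟩
    rw [(Mk (k + 1)).symmetric]
    exact h0 i

/-- First part: let `(W, S)` be a right-angled Coxeter system (`RA M`: all `m(i, j)` with `i ≠ j`
are `2` or `∞`), `S` finite, whose commuting graph has no triangle, and let `a, b, g, d` be a cycle of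
length four of this graph.  Then `W` is infinite, has Kazhdan-Lusztig data, and the statement of Q1
fails for it.  More precisely `w = v_0 = a b`, `y = x = e` and `u = v_1 = g d` satisfy all hypotheses
of Q1, `v_1` is maximal in `w' = w u`, and `μ(w, w' v_{01}⁻¹) = 0` for every suffix `v_{01}` of `v_0`;
so no `v_{01}` satisfies the conclusion.
Second part: such systems exist, irreducible, of every rank `≥ 5` (for example `Mk (k + 1)`). -/
theorem result :
    (∀ (B : Type) [Finite B] (M : CoxeterMatrix B), RA M → NoTriangle M →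
      ∀ a b g d : B, FourCycle M a b g d →
      ∀ (W : Type) [Group W] (cs : CoxeterSystem M W),
        Infinite W ∧ Nonempty (KLData cs) ∧ ∀ K : KLData cs, ¬ K.Statement ∧
          ∀ w u : W, w = cs.simple a * cs.simple b → u = cs.simple g * cs.simple d →
            K.Hyp w 1 w u 1 u ∧ MaxAt cs (w * u) w u 1 ∧
              ∀ v0' v01, w = v0' * v01 → Red cs v0' v01 → K.mu w (w * u * v01⁻¹) = 0) ∧
    (∀ k : ℕ, ∃ M : CoxeterMatrix (Fin 4 ⊕ Fin (k + 1)), Irred M ∧ RA M ∧ NoTriangle M ∧
      FourCycle M (Sum.inl 0) (Sum.inl 2) (Sum.inl 1) (Sum.inl 3)) := by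
  refine ⟨?_, fun k => ⟨Mk (k + 1), Mk_irred k, Mk_RA _, Mk_noTriangle _, by simp, by simp, ?_⟩⟩
  · intro B _ M hR hT a b g d hF W _ cs
    classical
    have := Fintype.ofFinite B
    have hp := hp_of hR hT hF
    refine ⟨infinite4 hR hp cs, exists_KLData cs, ?_⟩
    intro K
    refine ⟨?_, ?_⟩
    · intro hQ
      obtain ⟨v01, hc⟩ := hQ _ _ _ _ _ _ (hyp4 hR hT hp K)
      obtain ⟨v0', h1, h2⟩ := hc.suffix
      exact hc.mu_ne (key4 hR hp K v0' v01 h1 h2)
    · intro w u hw hu
      have e1 : cs.simple a * cs.simple b =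
          cs.wordProd (([0, 2] : List (Fin 4)).map (![a, g, b, d] : Fin 4 → B)) := by
        simp [cs.wordProd_cons]
      have e2 : cs.simple g * cs.simple d =
          cs.wordProd (([1, 3] : List (Fin 4)).map (![a, g, b, d] : Fin 4 → B)) := by
        simp [cs.wordProd_cons]
      rw [hw, hu, e1, e2]
      exact ⟨hyp4 hR hT hp K, max4 hR hT hp, fun v0' v01 h1 h2 => key4 hR hp K v0' v01 h1 h2⟩
  · refine ⟨?_, ?_, ?_, ?_⟩ <;> rw [Mk_inl] <;> decide

end Pool.Agent.Results.MP_28e63a_al.FourCycles
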